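import Pool.Agent.Helper75.PX.Stmts6

/-!
# Generators in the division case, characteristic two
-/

set_option autoImplicit false

universe u

open Module

namespace Pool.Agent.Helper75.PX

/-- `x ↦ x + 1` by `z`, and `w` commutes -/
theorem e4b_ca {D : Type u} [DivisionRing D] (h2 : (1 : D) + 1 = 0) {z w x : D}
    (hz : z * x = (x + 1) * z) (hw : w * x = x * w) :
    z * w * z⁻¹ * w⁻¹ * x = x * (z * w * z⁻¹ * w⁻¹) := by
  have hz2 : SemiconjBy z (x + 1) x := by
    show z * (x + 1) = x * z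
    rw [mul_add, hz, mul_one, add_mul, one_mul, add_assoc]
    have : z + z = 0 := by
      rw [← one_mul z, ← add_mul, h2, zero_mul]
    rw [this, add_zero]
  have hz3 : SemiconjBy z⁻¹ x (x + 1) := hz2.inv_symm_left₀
  have hw1 : SemiconjBy w (x + 1) (x + 1) := by
    show w * (x + 1) = (x + 1) * w
    rw [mul_add, hw, mul_one, add_mul, one_mul]
  have hw2 : SemiconjBy w x x := hw
  have hw3 : SemiconjBy w⁻¹ x x := hw2.inv_symm_left₀
  exact ((hz2.mul_left hw1).mul_left hz3).mul_left hw3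

/-- `x ↦ x + 1` by `w`, and `z` commutes -/
theorem e4b_cb {D : Type u} [DivisionRing D] (h2 : (1 : D) + 1 = 0) {z w x : D}
    (hz : z * x = x * z) (hw : w * x = (x + 1) * w) :
    z * w * z⁻¹ * w⁻¹ * x = x * (z * w * z⁻¹ * w⁻¹) := by
  have hw2 : SemiconjBy w (x + 1) x := by
    show w * (x + 1) = x * w
    rw [mul_add, hw, mul_one, add_mul, one_mul, add_assoc]
    have : w + w = 0 := by
      rw [← one_mul w, ← add_mul, h2, zero_mul]
    rw [this, add_zero]
  have hw3 : SemiconjBy w⁻¹ x (x + 1) := hw2.inv_symm_left₀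
  have hz1 : SemiconjBy z (x + 1) (x + 1) := by
    show z * (x + 1) = (x + 1) * z
    rw [mul_add, hz, mul_one, add_mul, one_mul]
  have hz2 : SemiconjBy z x x := hz
  have hz3 : SemiconjBy z⁻¹ (x + 1) (x + 1) := hz1.inv_symm_left₀
  exact ((hz2.mul_left hw2).mul_left hz3).mul_left hw3

/-- the constant term is nonzero -/
theorem e4b_ne {K D : Type u} [Field K] [DivisionRing D] [Algebra K D] {x : D} {a : K}
    (hx : x * x = x + algebraMap K D a) (hk : ∀ k : K, x ≠ algebraMap K D k) : a ≠ 0 := by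
  intro h
  rw [h, map_zero, add_zero] at hx
  have h1 : x * (x - 1) = 0 := by
    rw [mul_sub, hx, mul_one, sub_self]
  rcases mul_eq_zero.mp h1 with h2 | h2
  · exact hk 0 (by rw [h2, map_zero])
  · exact hk 1 (by rw [map_one]; exact sub_eq_zero.mp h2)

/-- all generators, division case, characteristic two -/
theorem st_E4b (h1 : ST_A4b.{u}) (h2 : ST_G4b.{u}) (h3 : ST_W4b.{u}) (h4 : ST_CEb.{u}) :
    ST_E4b.{u} := by
  intro K D _ _ _ _ hD h20
  have h2D : (1 : D) + 1 = 0 := by
    have h := congrArg (algebraMap K D) h20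
    rw [map_ofNat, map_zero] at h
    rw [one_add_one_eq_two]
    exact h
  obtain ⟨α, a, haa, hα⟩ := h1 K D hD h20
  obtain ⟨z, β, b, p, hz, hza, hzb, hab, hbb, hβ, hzz, hp⟩ := h2 K D hD h20 α a haa hα
  obtain ⟨w, k, r, hw, hwa, hwb, hr, hww⟩ := h3 K D hD h20 α β z a b haa hbb hα hβ hab hz hza hzb
  obtain ⟨κ, hκ⟩ : ∃ κ : D, κ = algebraMap K D k := ⟨_, rfl⟩
  have hc : ∀ x : D, κ * x = x * κ := by
    intro x
    rw [hκ]
    exact Algebra.commutes k x
  have hdd : ∀ x : D, x + x = 0 := by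
    intro x
    rw [← one_mul x, ← add_mul, h2D, zero_mul]
  rw [← hκ] at hww
  have haa' : (α + κ) * (α + κ) = (α + κ) + algebraMap K D (a + k ^ 2 + k) := by
    have e1 : algebraMap K D (a + k ^ 2 + k) = algebraMap K D a + κ * κ + κ := by
      rw [map_add, map_add, map_pow, sq, ← hκ]
    rw [e1, add_mul, mul_add, mul_add, haa, hc α]
    have e2 : α + algebraMap K D a + α * κ + (α * κ + κ * κ) =
        α + algebraMap K D a + κ * κ + (α * κ + α * κ) := by abel
    have e3 : α + κ + (algebraMap K D a + κ * κ + κ) =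
        α + algebraMap K D a + κ * κ + (κ + κ) := by abel
    rw [e2, e3, hdd, hdd]
  have hab' : (α + κ) * β = β * (α + κ) := by rw [add_mul, mul_add, hab, hc β]
  have hza' : z * (α + κ) = ((α + κ) + 1) * z := by
    rw [mul_add, hza, ← hc z, ← add_mul]
    congr 1
    abel
  have hwa' : w * (α + κ) = (α + κ) * w := by rw [mul_add, add_mul, hwa, hc w]
  have hα' : ∀ l : K, α + κ ≠ algebraMap K D l := by
    intro l h
    apply hα (l - k)
    rw [map_sub, ← hκ, ← h, add_sub_cancel_right]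
  obtain ⟨v, hv⟩ := h4 K D hD h20 (α + κ) β z w (a + k ^ 2 + k) b haa' hbb hab' hz hw hza' hzb
    hwa' hwb (z * w * z⁻¹ * w⁻¹) (e4b_ca h2D hza' hwa') (e4b_cb h2D hzb hwb)
  refine ⟨α + κ, β, z, w, a + k ^ 2 + k, b, p, r, v, ?_⟩
  exact
    { haa := haa'
      hbb := hbb
      hab := hab'
      hza := hza'
      hzb := hzb
      hwa := hwa'
      hwb := hwb
      hzz := hzz
      hww := hww
      hzw := by
        rw [← hv, mul_assoc (z * w * z⁻¹), ← mul_assoc w⁻¹, inv_mul_cancel₀ hw, one_mul,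
          mul_assoc (z * w), inv_mul_cancel₀ hz, mul_one]
      a0 := e4b_ne haa' hα'
      b0 := e4b_ne hbb hβ
      p0 := hp
      r0 := hr }

end Pool.Agent.Helper75.PX
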