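import Pool.Agent.Helper75.PX.Stmts

/-! # Row CL3 (MP_ce4989_al): products of the nine monomials -/

set_option autoImplicit false

universe u

namespace Pool.Agent.Helper75.PX

theorem cl3_one {K A : Type*} [Field K] [Ring A] [Algebra K A] (ζ : K) (i j : A)
    (h : j * i = ζ • (i * j)) (m : ℕ) : j * i ^ m = ζ ^ m • (i ^ m * j) := by
  induction m with
  | zero => simp
  | succ m ih =>
    rw [pow_succ i, ← mul_assoc, ih, smul_mul_assoc, mul_assoc, h, mul_smul_comm, smul_smul,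
      ← mul_assoc, ← pow_succ ζ]

theorem cl3_two {K A : Type*} [Field K] [Ring A] [Algebra K A] (ζ : K) (i j : A)
    (h : j * i = ζ • (i * j)) (n m : ℕ) : j ^ n * i ^ m = ζ ^ (m * n) • (i ^ m * j ^ n) := by
  induction n with
  | zero => simp
  | succ n ih =>
    rw [pow_succ' j, mul_assoc, ih, mul_smul_comm, ← mul_assoc, cl3_one ζ i j h m, smul_mul_assoc,
      smul_smul, mul_assoc, ← pow_add, Nat.mul_succ]

theorem cl3_red {K A : Type*} [Field K] [Ring A] [Algebra K A] (i : A) (c : K)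
    (h : i * i * i = algebraMap K A c) (n : ℕ) : i ^ n = c ^ (n / 3) • i ^ (n % 3) := by
  have h3 : i ^ 3 = algebraMap K A c := by rw [← h]; noncomm_ring
  conv_lhs => rw [← Nat.div_add_mod n 3]
  rw [pow_add, pow_mul, h3, ← map_pow, Algebra.smul_def]

/-- row CL3 -/
theorem st_CL3 : ST_CL3.{u} := by
  intro F K A _ _ _ _ _ L ζ i j c d hD hζ _ hc hd s t
  have h1 : e3 i j s * e3 i j t = (ζ ^ ((t.1 : ℕ) * (s.2 : ℕ)) *
      (c ^ (((s.1 : ℕ) + t.1) / 3) * d ^ (((s.2 : ℕ) + t.2) / 3))) •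
      e3 i j (⟨((s.1 : ℕ) + t.1) % 3, Nat.mod_lt _ (by norm_num)⟩,
        ⟨((s.2 : ℕ) + t.2) % 3, Nat.mod_lt _ (by norm_num)⟩) := by
    unfold e3
    have h2 : i ^ (s.1 : ℕ) * j ^ (s.2 : ℕ) * (i ^ (t.1 : ℕ) * j ^ (t.2 : ℕ)) =
        i ^ (s.1 : ℕ) * (j ^ (s.2 : ℕ) * i ^ (t.1 : ℕ)) * j ^ (t.2 : ℕ) := by
      simp only [mul_assoc]
    rw [h2, cl3_two ζ i j hD.hij, mul_smul_comm, smul_mul_assoc]
    have h3 : i ^ (s.1 : ℕ) * (i ^ (t.1 : ℕ) * j ^ (s.2 : ℕ)) * j ^ (t.2 : ℕ) =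
        i ^ ((s.1 : ℕ) + t.1) * j ^ ((s.2 : ℕ) + t.2) := by
      rw [pow_add, pow_add]
      simp only [mul_assoc]
    rw [h3, cl3_red i c hD.hi, cl3_red j d hD.hj, smul_mul_smul_comm, smul_smul]
  rw [h1]
  have hk : ζ ^ ((t.1 : ℕ) * (s.2 : ℕ)) *
      (c ^ (((s.1 : ℕ) + t.1) / 3) * d ^ (((s.2 : ℕ) + t.2) / 3)) ∈ L :=
    mul_mem (pow_mem hζ _) (mul_mem (pow_mem hc _) (pow_mem hd _))
  exact Submodule.smul_mem _ (⟨_, hk⟩ : L) (Submodule.subset_span ⟨_, rfl⟩)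

end Pool.Agent.Helper75.PX
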