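import Pool.Agent.Helper75.PX.Stmts2

/-! # Row UNI (MP_ce4989_al): uniqueness in Wedderburn's theorem -/

set_option autoImplicit false

universe u

open Module TensorProduct
open scoped Matrix.Module

namespace Pool.Agent.Helper75.PX

theorem uni_iso (R V V' : Type*) [Ring R] [IsSimpleRing R] [IsArtinianRing R] [AddCommGroup V]
    [AddCommGroup V'] [Module R V] [Module R V'] [IsSimpleModule R V] [IsSimpleModule R V'] :
    Nonempty (V ≃ₗ[R] V') := by
  have e1 : V ≃ₗ[R] LinearMap.range (LinearMap.inl R V V') :=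
    LinearEquiv.ofInjective _ LinearMap.inl_injective
  have e2 : V' ≃ₗ[R] LinearMap.range (LinearMap.inr R V V') :=
    LinearEquiv.ofInjective _ LinearMap.inr_injective
  have : IsSimpleModule R (LinearMap.range (LinearMap.inl R V V')) :=
    IsSimpleModule.congr e1.symm
  have : IsSimpleModule R (LinearMap.range (LinearMap.inr R V V')) :=
    IsSimpleModule.congr e2.symm
  obtain ⟨e⟩ := IsSimpleRing.isIsotypic R (V × V') (LinearMap.range (LinearMap.inl R V V'))
    (LinearMap.range (LinearMap.inr R V V'))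
  exact ⟨(e1.trans e.symm).trans e2.symm⟩

theorem uni_simple (R V : Type*) [Ring R] [AddCommGroup V] [Module R V] [Nontrivial V]
    (h : ∀ v : V, v ≠ 0 → ∀ w : V, ∃ a : R, a • v = w) : IsSimpleModule R V where
  exists_pair_ne := ⟨⊥, ⊤, bot_ne_top⟩
  eq_bot_or_eq_top := by
    intro N
    rcases eq_or_ne N ⊥ with hN | hN
    · exact Or.inl hN
    · right
      obtain ⟨v, hv, hv0⟩ := N.ne_bot_iff.1 hN
      refine eq_top_iff.2 fun w _ => ?_
      obtain ⟨a, ha⟩ := h v hv0 w
      rw [← ha]
      exact N.smul_mem a hv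

theorem uni_trans {D : Type*} [DivisionRing D] {r : ℕ} (v : Fin r → D) (hv : v ≠ 0)
    (w : Fin r → D) : ∃ a : Matrix (Fin r) (Fin r) D, a • v = w := by
  obtain ⟨i, hi⟩ := Function.ne_iff.1 hv
  refine ⟨Matrix.of fun k j => if j = i then w k * (v i)⁻¹ else 0, ?_⟩
  funext k
  rw [Matrix.Module.smul_apply, Finset.sum_eq_single i]
  · rw [Matrix.of_apply, if_pos rfl, smul_eq_mul, mul_assoc, inv_mul_cancel₀ hi, mul_one]
  · intro j _ hj
    rw [Matrix.of_apply, if_neg hj, zero_smul]
  · intro h
    exact absurd (Finset.mem_univ i) h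

theorem uni_theta {K D D' : Type*} [Field K] [DivisionRing D] [Algebra K D] [DivisionRing D']
    [Algebra K D'] [FiniteDimensional K D] {r s : ℕ} (hr : 0 < r) (hs : 0 < s)
    (φ : Matrix (Fin r) (Fin r) D ≃ₐ[K] Matrix (Fin s) (Fin s) D') :
    ∃ θ : (Fin r → D) ≃+ (Fin s → D'), ∀ (a : Matrix (Fin r) (Fin r) D) (v : Fin r → D),
      θ (a • v) = φ a • θ v := by
  have : Nonempty (Fin r) := ⟨⟨0, hr⟩⟩
  have : Nonempty (Fin s) := ⟨⟨0, hs⟩⟩
  have : IsArtinianRing (Matrix (Fin r) (Fin r) D) :=
    IsArtinianRing.of_finite K (Matrix (Fin r) (Fin r) D)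
  let : Module (Matrix (Fin r) (Fin r) D) (Fin s → D') :=
    Module.compHom (Fin s → D') (φ : Matrix (Fin r) (Fin r) D →+* Matrix (Fin s) (Fin s) D')
  have hsm : ∀ (a : Matrix (Fin r) (Fin r) D) (v : Fin s → D'), a • v = φ a • v :=
    fun a v => rfl
  have h1 : IsSimpleModule (Matrix (Fin r) (Fin r) D) (Fin r → D) :=
    uni_simple _ _ fun v hv w => uni_trans v hv w
  have h2 : IsSimpleModule (Matrix (Fin r) (Fin r) D) (Fin s → D') := by
    refine uni_simple _ _ fun v hv w => ?_
    obtain ⟨b, hb⟩ := uni_trans v hv w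
    refine ⟨φ.symm b, ?_⟩
    rw [hsm, AlgEquiv.apply_symm_apply]
    exact hb
  obtain ⟨e⟩ := uni_iso (Matrix (Fin r) (Fin r) D) (Fin r → D) (Fin s → D')
  exact ⟨e.toAddEquiv, fun a v => e.map_smul a v⟩

theorem uni_scalar {K : Type*} [Field K] {t : ℕ} {E : Type*} [DivisionRing E] [Algebra K E] (c : K)
    (v : Fin t → E) :
    (algebraMap K (Matrix (Fin t) (Fin t) E) c) • v = fun k => v k * algebraMap K E c := by
  funext k
  rw [Matrix.Module.smul_apply, Finset.sum_eq_single k]
  · rw [Matrix.algebraMap_matrix_apply, if_pos rfl, smul_eq_mul, Algebra.commutes]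
  · intro j _ hj
    rw [Matrix.algebraMap_matrix_apply, if_neg (Ne.symm hj), zero_smul]
  · intro h
    exact absurd (Finset.mem_univ k) h

theorem uni_hom {K D D' : Type*} [Field K] [DivisionRing D] [Algebra K D] [DivisionRing D']
    [Algebra K D'] [FiniteDimensional K D] {r s : ℕ} (hr : 0 < r) (hs : 0 < s)
    (φ : Matrix (Fin r) (Fin r) D ≃ₐ[K] Matrix (Fin s) (Fin s) D') :
    Nonempty (D →ₐ[K] D') := by
  obtain ⟨θ, hθ⟩ := uni_theta hr hs φ
  set i0 : Fin s := ⟨0, hs⟩ with hi0
  set e0 : Fin s → D' := Pi.single i0 1 with he0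
  set x : Fin r → D := θ.symm e0 with hx
  have hxe : θ x = e0 := θ.apply_symm_apply e0
  have e00 : e0 i0 = 1 := by rw [he0, Pi.single_eq_same]
  have key : ∀ (v' : Fin s → D') (d : D), θ (fun k => θ.symm v' k * d) =
      fun k => v' k * θ (fun k => x k * d) i0 := by
    intro v' d
    set B : Matrix (Fin s) (Fin s) D' := Matrix.of fun k j => if j = i0 then v' k else 0 with hB
    have hBs : ∀ u : Fin s → D', B • u = fun k => v' k * u i0 := by
      intro u
      funext k
      rw [Matrix.Module.smul_apply, Finset.sum_eq_single i0]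
      · rw [hB, Matrix.of_apply, if_pos rfl, smul_eq_mul]
      · intro j _ hj
        rw [hB, Matrix.of_apply, if_neg hj, zero_smul]
      · intro h
        exact absurd (Finset.mem_univ i0) h
    have h1 : θ (φ.symm B • x) = v' := by
      rw [hθ, AlgEquiv.apply_symm_apply, hxe, hBs]
      funext k
      rw [e00, mul_one]
    have h2 : θ.symm v' = φ.symm B • x := by rw [← h1, AddEquiv.symm_apply_apply]
    have h3 : (fun k => θ.symm v' k * d) = φ.symm B • (fun k => x k * d) := by
      rw [h2]
      funext k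
      simp only [Matrix.Module.smul_apply, smul_eq_mul, Finset.sum_mul, mul_assoc]
    rw [h3, hθ, AlgEquiv.apply_symm_apply, hBs]
  have key0 : ∀ d : D, θ (fun k => x k * d) = fun k => e0 k * θ (fun k => x k * d) i0 :=
    fun d => key e0 d
  refine ⟨{ toFun := fun d => θ (fun k => x k * d) i0
            map_one' := ?_
            map_mul' := ?_
            map_zero' := ?_
            map_add' := ?_
            commutes' := ?_ }⟩
  · have h : (fun k => x k * (1 : D)) = x := funext fun k => mul_one _
    show θ (fun k => x k * (1 : D)) i0 = 1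
    rw [h, hxe, e00]
  · intro d e
    show θ (fun k => x k * (d * e)) i0 = θ (fun k => x k * d) i0 * θ (fun k => x k * e) i0
    have h1 : (fun k => x k * (d * e)) = fun k => θ.symm (θ (fun k => x k * d)) k * e := by
      funext k
      rw [AddEquiv.symm_apply_apply, mul_assoc]
    rw [h1, key]
  · show θ (fun k => x k * (0 : D)) i0 = 0
    have h : (fun k => x k * (0 : D)) = 0 := funext fun k => mul_zero _
    rw [h, map_zero]
    rfl
  · intro d e
    show θ (fun k => x k * (d + e)) i0 = θ (fun k => x k * d) i0 + θ (fun k => x k * e) i0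
    have h : (fun k => x k * (d + e)) = (fun k => x k * d) + fun k => x k * e :=
      funext fun k => mul_add _ _ _
    rw [h, map_add]
    rfl
  · intro c
    show θ (fun k => x k * algebraMap K D c) i0 = algebraMap K D' c
    rw [← uni_scalar c x, hθ, AlgEquiv.commutes, hxe]
    have h := congrFun (uni_scalar c e0) i0
    rw [h, e00, one_mul]

/-- row UNI -/
theorem st_UNI : ST_UNI.{u} := by
  rintro K D D' _ _ _ _ _ _ _ r s hr hs ⟨φ⟩
  obtain ⟨f⟩ := uni_hom hr hs φ
  obtain ⟨g⟩ := uni_hom hs hr φ.symm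
  have hf : Function.Injective f := f.toRingHom.injective
  have hg : Function.Injective g := g.toRingHom.injective
  have h1 : finrank K D ≤ finrank K D' :=
    LinearMap.finrank_le_finrank_of_injective (f := f.toLinearMap) hf
  have h2 : finrank K D' ≤ finrank K D :=
    LinearMap.finrank_le_finrank_of_injective (f := g.toLinearMap) hg
  have h3 : finrank K D = finrank K D' := le_antisymm h1 h2
  have hsur : Function.Surjective f :=
    (LinearMap.injective_iff_surjective_of_finrank_eq_finrank (f := f.toLinearMap) h3).1 hf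
  refine ⟨?_, ⟨AlgEquiv.ofBijective f ⟨hf, hsur⟩⟩⟩
  have h4 := φ.toLinearEquiv.finrank_eq
  rw [Module.finrank_matrix, Module.finrank_matrix, Fintype.card_fin, Fintype.card_fin, h3] at h4
  have h5 : 0 < finrank K D' := Module.finrank_pos
  exact Nat.mul_self_inj.1 (Nat.eq_of_mul_eq_mul_right h5 h4)

end Pool.Agent.Helper75.PX
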